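import Pool.Agent.Y875.FP.MerH

/-!
Rational numbers divisible by `2 ^ N` in the ring of rational numbers with odd denominator, and the
sign `chi` of a residue modulo `2 ^ (m + 1)`.
-/

set_option autoImplicit false

open Finset

namespace Pool.Agent.J4.H56.FM

/-- The rational numbers `q` with `d q ∈ 2 ^ N ℤ` for an odd integer `d`. -/
def Zt (N : ℕ) : AddSubgroup ℚ where
  carrier := {q | ∃ d n : ℤ, Odd d ∧ (d : ℚ) * q = 2 ^ N * n}
  zero_mem' := ⟨1, 0, odd_one, by simp⟩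
  add_mem' := by
    rintro a b ⟨d, n, hd, h⟩ ⟨d', n', hd', h'⟩
    exact ⟨d * d', d' * n + d * n', hd.mul hd', by
      push_cast; linear_combination (d' : ℚ) * h + (d : ℚ) * h'⟩
  neg_mem' := by
    rintro a ⟨d, n, hd, h⟩
    exact ⟨d, -n, hd, by push_cast; linear_combination -h⟩

lemma mem_Zt {N : ℕ} {q : ℚ} : q ∈ Zt N ↔ ∃ d n : ℤ, Odd d ∧ (d : ℚ) * q = 2 ^ N * n := Iff.rfl

lemma Zt_mul {M N : ℕ} {a b : ℚ} (ha : a ∈ Zt M) (hb : b ∈ Zt N) : a * b ∈ Zt (M + N) := by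
  obtain ⟨d, n, hd, h⟩ := ha
  obtain ⟨d', n', hd', h'⟩ := hb
  refine ⟨d * d', n * n', hd.mul hd', ?_⟩
  push_cast
  calc (d : ℚ) * d' * (a * b) = (d * a) * (d' * b) := by ring
    _ = _ := by rw [h, h', pow_add]; ring

lemma Zt_mono {M N : ℕ} (h : N ≤ M) {a : ℚ} (ha : a ∈ Zt M) : a ∈ Zt N := by
  obtain ⟨d, n, hd, h1⟩ := ha
  obtain ⟨c, rfl⟩ := Nat.exists_eq_add_of_le h
  refine ⟨d, 2 ^ c * n, hd, ?_⟩
  rw [h1]
  push_cast
  rw [pow_add]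
  ring

lemma Zt_int (z : ℤ) : (z : ℚ) ∈ Zt 0 := ⟨1, z, odd_one, by push_cast; ring⟩

lemma Zt_pow (N : ℕ) : (2 : ℚ) ^ N ∈ Zt N := ⟨1, 1, odd_one, by push_cast; ring⟩

lemma Zt_int_mul {N : ℕ} (z : ℤ) {a : ℚ} (ha : a ∈ Zt N) : (z : ℚ) * a ∈ Zt N := by
  have := Zt_mul (Zt_int z) ha
  rwa [zero_add] at this

lemma Zt_cast {N : ℕ} {z : ℤ} : (z : ℚ) ∈ Zt N ↔ (2 : ℤ) ^ N ∣ z := by
  constructor
  · rintro ⟨d, n, hd, h⟩
    have h1 : d * z = 2 ^ N * n := by exact_mod_cast h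
    have hcop : IsCoprime ((2 : ℤ) ^ N) d := by
      apply IsCoprime.pow_left
      obtain ⟨c, hc⟩ := hd
      exact ⟨-c, 1, by rw [hc]; ring⟩
    exact hcop.dvd_of_dvd_mul_left ⟨n, h1⟩
  · rintro ⟨n, rfl⟩
    exact ⟨1, n, odd_one, by push_cast; ring⟩

/-- `2 ^ x / k` for `k = 2 ^ e o`, `o` odd. -/
lemma Zt_term {x k N e o : ℕ} (ho : Odd o) (hk : k = 2 ^ e * o) (h : N + e ≤ x) :
    (2 : ℚ) ^ x / (k : ℚ) ∈ Zt N := by
  obtain ⟨c, rfl⟩ := Nat.exists_eq_add_of_le h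
  refine ⟨o, 2 ^ c, by exact_mod_cast ho, ?_⟩
  have h4 : (o : ℚ) ≠ 0 := by
    have : o ≠ 0 := by have := ho.pos; omega
    exact_mod_cast this
  rw [hk, pow_add, pow_add]
  push_cast
  field_simp

/-- The sign of a residue. -/
def chi (m : ℕ) (x : ZMod (2 ^ (m + 1))) : ℤ := if x.val < 2 ^ m then 1 else -1

lemma sgn_eq (m s k : ℕ) : Pool.Agent.Y875.FP.sgn m s k =
    chi m ((k : ZMod (2 ^ (m + 1))) * (s : ZMod (2 ^ (m + 1)))⁻¹) := rfl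

lemma chi_or (m : ℕ) (x : ZMod (2 ^ (m + 1))) : chi m x = 1 ∨ chi m x = -1 := by
  unfold chi
  split_ifs
  · left; rfl
  · right; rfl

instance (m : ℕ) : NeZero (2 ^ (m + 1)) := ⟨by positivity⟩

lemma chi_natCast (m n : ℕ) : chi m (n : ZMod (2 ^ (m + 1))) =
    if n % 2 ^ (m + 1) < 2 ^ m then 1 else -1 := by
  unfold chi
  rw [ZMod.val_natCast]

lemma exists_nat (m : ℕ) (x : ZMod (2 ^ (m + 1))) : ∃ n : ℕ, n < 2 ^ (m + 1) ∧ x = n :=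
  ⟨x.val, ZMod.val_lt x, (ZMod.natCast_zmod_val x).symm⟩

lemma chi_add (m : ℕ) (x : ZMod (2 ^ (m + 1))) : chi m (x + 2 ^ m) = -chi m x := by
  obtain ⟨n, hn, rfl⟩ := exists_nat m x
  have h7 : (2 : ℕ) ^ (m + 1) = 2 * 2 ^ m := by ring
  have h1 : ((n : ZMod (2 ^ (m + 1))) + 2 ^ m) = ((n + 2 ^ m : ℕ) : ZMod (2 ^ (m + 1))) := by
    push_cast; ring
  rw [h1, chi_natCast, chi_natCast, Nat.mod_eq_of_lt hn]
  by_cases h : n < 2 ^ m
  · rw [if_pos h, Nat.mod_eq_of_lt (by omega), if_neg (by omega)]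
  · have h2 : (n + 2 ^ m) % 2 ^ (m + 1) = n - 2 ^ m := by
      rw [Nat.mod_eq_sub_mod (by omega), Nat.mod_eq_of_lt (by omega)]
      omega
    rw [if_neg h, h2, if_pos (by omega)]
    norm_num

lemma two_pow_zero (m : ℕ) : (2 : ZMod (2 ^ (m + 1))) ^ (m + 1) = 0 := by
  have h4 : ((2 ^ (m + 1) : ℕ) : ZMod (2 ^ (m + 1))) = 0 := ZMod.natCast_self _
  push_cast at h4
  exact h4

/-- The sum of three signs. -/
lemma chi_three (n : ℕ) (x : ZMod (2 ^ (n + 1 + 1))) :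
    (4 : ℤ) ∣ chi (n + 1) x + chi (n + 1) (x - 2 ^ n) + chi (n + 1) (2 * x) - 1 := by
  obtain ⟨a, ha, rfl⟩ := exists_nat (n + 1) x
  have h7 : (2 : ℕ) ^ (n + 1 + 1) = 4 * 2 ^ n := by ring
  have h8 : (2 : ℕ) ^ (n + 1) = 2 * 2 ^ n := by ring
  have h9 : 0 < 2 ^ n := by positivity
  have h1 : ((a : ZMod (2 ^ (n + 1 + 1))) - 2 ^ n) = ((a + 3 * 2 ^ n : ℕ) : ZMod (2 ^ (n + 1 + 1))) := by
    have h4 := two_pow_zero (n + 1)
    push_cast
    linear_combination -h4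
  have h2 : ((2 : ZMod (2 ^ (n + 1 + 1))) * a) = ((2 * a : ℕ) : ZMod (2 ^ (n + 1 + 1))) := by
    push_cast; ring
  rw [h1, h2, chi_natCast, chi_natCast, chi_natCast, Nat.mod_eq_of_lt ha]
  have key : ∀ y z : ℕ, z < 2 ^ (n + 1 + 1) → (y = z ∨ y = z + 2 ^ (n + 1 + 1)) →
      y % 2 ^ (n + 1 + 1) = z := by
    intro y z hz hy
    rcases hy with rfl | rfl
    · exact Nat.mod_eq_of_lt hz
    · rw [Nat.add_mod_right, Nat.mod_eq_of_lt hz]
  rcases Nat.lt_or_ge a (2 ^ n) with h | h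
  · rw [key (a + 3 * 2 ^ n) (a + 3 * 2 ^ n) (by omega) (Or.inl rfl),
      key (2 * a) (2 * a) (by omega) (Or.inl rfl), if_pos (by omega), if_neg (by omega),
      if_pos (by omega)]
    norm_num
  rcases Nat.lt_or_ge a (2 * 2 ^ n) with h' | h'
  · rw [key (a + 3 * 2 ^ n) (a - 2 ^ n) (by omega) (Or.inr (by omega)),
      key (2 * a) (2 * a) (by omega) (Or.inl rfl), if_pos (by omega), if_pos (by omega),
      if_neg (by omega)]
    norm_num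
  rcases Nat.lt_or_ge a (3 * 2 ^ n) with h'' | h''
  · rw [key (a + 3 * 2 ^ n) (a - 2 ^ n) (by omega) (Or.inr (by omega)),
      key (2 * a) (2 * a - 4 * 2 ^ n) (by omega) (Or.inr (by omega)), if_neg (by omega),
      if_pos (by omega), if_pos (by omega)]
    norm_num
  · rw [key (a + 3 * 2 ^ n) (a - 2 ^ n) (by omega) (Or.inr (by omega)),
      key (2 * a) (2 * a - 4 * 2 ^ n) (by omega) (Or.inr (by omega)), if_neg (by omega),
      if_neg (by omega), if_neg (by omega)]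
    norm_num

lemma inv_mul_odd (m : ℕ) {s : ℕ} (hs : Odd s) :
    (s : ZMod (2 ^ (m + 1)))⁻¹ * (s : ZMod (2 ^ (m + 1))) = 1 := by
  obtain ⟨u, hu⟩ := Pool.Agent.Y875.FP.unit_of_odd m hs
  rw [← hu, ZMod.inv_coe_unit, ← Units.val_mul, inv_mul_cancel, Units.val_one]

lemma two_pow_odd (m : ℕ) {s : ℕ} (hs : Odd s) :
    (2 : ZMod (2 ^ (m + 1))) ^ m * (s : ZMod (2 ^ (m + 1))) = 2 ^ m := by
  obtain ⟨c, rfl⟩ := hs
  push_cast
  linear_combination (c : ZMod (2 ^ (m + 1))) * two_pow_zero m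

/-- One step: the sign changes. -/
lemma chi_step {m a n k r : ℕ} (hmn : m = n + a) (hn : 0 < n) (hr : Odd r) (hk : Odd k) :
    chi m (((2 ^ a * k : ℕ) : ZMod (2 ^ (m + 1))) * ((r + 2 ^ n : ℕ) : ZMod (2 ^ (m + 1)))⁻¹) =
      -chi m (((2 ^ a * k : ℕ) : ZMod (2 ^ (m + 1))) * ((r : ℕ) : ZMod (2 ^ (m + 1)))⁻¹) := by
  have hr' : Odd (r + 2 ^ n) := by
    apply hr.add_even
    exact Even.pow_of_ne_zero even_two (by omega)
  have h1 := inv_mul_odd m hr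
  have h2 := inv_mul_odd m hr'
  have h3 := two_pow_odd m hr
  have h4 := two_pow_odd m hr'
  have h5 := two_pow_odd m hk
  have h6 := two_pow_zero m
  rw [← chi_add]
  congr 1
  generalize hX : ((r : ℕ) : ZMod (2 ^ (m + 1)))⁻¹ = X at *
  generalize hY : ((r + 2 ^ n : ℕ) : ZMod (2 ^ (m + 1)))⁻¹ = Y at *
  generalize hR : ((r : ℕ) : ZMod (2 ^ (m + 1))) = R at *
  have hR' : ((r + 2 ^ n : ℕ) : ZMod (2 ^ (m + 1))) = R + 2 ^ n := by push_cast; rw [hR]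
  rw [hR'] at h2 h4
  generalize hK : ((k : ℕ) : ZMod (2 ^ (m + 1))) = K at *
  have hKK : ((2 ^ a * k : ℕ) : ZMod (2 ^ (m + 1))) = 2 ^ a * K := by push_cast; rw [hK]
  rw [hKK]
  have e1 : (2 : ZMod (2 ^ (m + 1))) ^ m = 2 ^ n * 2 ^ a := by rw [← pow_add]; congr 1
  have e2 : (2 : ZMod (2 ^ (m + 1))) ^ (m + 1) = 2 ^ n * 2 ^ a * 2 := by
    rw [← e1]; ring
  -- `P X = P`, `P Y = P`
  have f1 : (2 : ZMod (2 ^ (m + 1))) ^ m * X = 2 ^ m := by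
    linear_combination (-X) * h3 + (2 : ZMod (2 ^ (m + 1))) ^ m * h1
  have f2 : (2 : ZMod (2 ^ (m + 1))) ^ m * Y = 2 ^ m := by
    linear_combination (-Y) * h4 + (2 : ZMod (2 ^ (m + 1))) ^ m * h2
  rw [e1] at h5 f1 f2 ⊢
  rw [e2] at h6
  linear_combination (2 ^ a * K * Y) * h1.symm + (2 ^ a * K * X) * h2 - X * Y * h5 - Y * f1 - f2 - h6

lemma chi_steps {m a n k r : ℕ} (hmn : m = n + a) (hn : 0 < n) (hr : Odd r) (hk : Odd k) (x : ℕ) :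
    chi m (((2 ^ a * k : ℕ) : ZMod (2 ^ (m + 1))) * ((r + 2 ^ n * x : ℕ) : ZMod (2 ^ (m + 1)))⁻¹) =
      (-1) ^ x * chi m (((2 ^ a * k : ℕ) : ZMod (2 ^ (m + 1))) * ((r : ℕ) : ZMod (2 ^ (m + 1)))⁻¹) := by
  induction x with
  | zero => simp
  | succ x ih =>
    have h1 : r + 2 ^ n * (x + 1) = (r + 2 ^ n * x) + 2 ^ n := by ring
    have h2 : Odd (r + 2 ^ n * x) := by
      apply hr.add_even
      exact (Even.pow_of_ne_zero even_two (by omega)).mul_right _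
    rw [h1, chi_step hmn hn h2 hk, ih]
    ring

/-- No change of the sign. -/
lemma chi_same {m a n k r : ℕ} (hmn : m + 1 = n + a) (hn : 0 < n) (hr : Odd r) (x : ℕ) :
    chi m (((2 ^ a * k : ℕ) : ZMod (2 ^ (m + 1))) * ((r + 2 ^ n * x : ℕ) : ZMod (2 ^ (m + 1)))⁻¹) =
      chi m (((2 ^ a * k : ℕ) : ZMod (2 ^ (m + 1))) * ((r : ℕ) : ZMod (2 ^ (m + 1)))⁻¹) := by
  have hr' : Odd (r + 2 ^ n * x) := by
    apply hr.add_even
    exact (Even.pow_of_ne_zero even_two (by omega)).mul_right _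
  have h1 := inv_mul_odd m hr
  have h2 := inv_mul_odd m hr'
  have h6 := two_pow_zero m
  congr 1
  generalize hX : ((r : ℕ) : ZMod (2 ^ (m + 1)))⁻¹ = X at *
  generalize hY : ((r + 2 ^ n * x : ℕ) : ZMod (2 ^ (m + 1)))⁻¹ = Y at *
  generalize hR : ((r : ℕ) : ZMod (2 ^ (m + 1))) = R at *
  have hR' : ((r + 2 ^ n * x : ℕ) : ZMod (2 ^ (m + 1))) = R + 2 ^ n * x := by push_cast; rw [hR]
  rw [hR'] at h2
  have e2 : (2 : ZMod (2 ^ (m + 1))) ^ (m + 1) = 2 ^ n * 2 ^ a := by rw [← pow_add]; congr 1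
  rw [e2] at h6
  push_cast
  linear_combination (2 ^ a * k * Y) * h1.symm + (2 ^ a * k * X) * h2 - X * Y * x * k * h6

end Pool.Agent.J4.H56.FM
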