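import Pool.Agent.J4.H56.FM.Sum

/-!
The total index.
-/

set_option autoImplicit false

open Finset

namespace Pool.Agent.J4.H56.FM

open Pool.Agent.Y875.FP

lemma three_le {e o k : ℕ} (ho : Odd o) (hk : k = 2 ^ e * o) (h1 : k ≠ 1) (h2 : k ≠ 2)
    (h4 : k ≠ 4) : e + 3 ≤ k := by
  have ho1 : 1 ≤ o := ho.pos
  rcases Nat.lt_or_ge e 3 with h | h
  · interval_cases e
    · rcases Nat.lt_or_ge k 3 with h' | h'
      · obtain ⟨t, ht⟩ := ho
        omega
      · omega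
    · obtain ⟨t, ht⟩ := ho
      omega
    · obtain ⟨t, ht⟩ := ho
      omega
  · have h3 : ∀ e : ℕ, 3 ≤ e → e + 3 ≤ 2 ^ e := by
      intro e he
      induction e, he using Nat.le_induction with
      | base => norm_num
      | succ e he ih => rw [pow_succ]; omega
    have h5 := h3 e h
    have h6 : 2 ^ e ≤ k := by rw [hk]; exact Nat.le_mul_of_pos_right _ ho.pos
    omega

lemma one_le' {e o k : ℕ} (ho : Odd o) (hk : k = 2 ^ e * o) : e + 1 ≤ k := by
  have h6 : 2 ^ e ≤ k := by rw [hk]; exact Nat.le_mul_of_pos_right _ ho.pos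
  have h7 : e < 2 ^ e := Nat.lt_two_pow_self
  omega

lemma tail_le {m e o k : ℕ} (ho : Odd o) (hk : k = 2 ^ e * o) (h : 2 * m + 4 < k) :
    m + 3 + e ≤ k := by
  have h1 : 2 ^ e ≤ k := by rw [hk]; exact Nat.le_mul_of_pos_right _ ho.pos
  have h2 : ∀ e : ℕ, 2 * e ≤ 2 ^ e := by
    intro e
    induction e with
    | zero => norm_num
    | succ e ih =>
      rcases Nat.eq_zero_or_pos e with h | h
      · subst h; norm_num
      · rw [pow_succ]; omega
  have h3 := h2 e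
  omega

/-- The main part of a term. -/
def PP (m h j c k : ℕ) : ℚ :=
  if 2 ^ j ∣ k then (sgn m c k : ℚ) * ((2 : ℚ) ^ k / k * (2 ^ j * ((c : ℚ) - 2 ^ h))) else 0

lemma term_gen {m h j c k N : ℕ} (hm : m = h + j) (hc : Odd c) (hk : k ≠ 0)
    (hN : (2 : ℚ) ^ k / k ∈ Zt N) :
    (2 : ℚ) ^ k / k * (TT m h j c k : ℚ) - PP m h j c k ∈ Zt (m + N) := by
  have hx : ∀ z : ℤ, (2 : ℚ) ^ m * ((z : ℚ) * ((2 : ℚ) ^ k / k)) ∈ Zt (m + N) := fun z =>
    Zt_mul (Zt_pow m) (Zt_int_mul z hN)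
  unfold PP
  split_ifs with hd
  · obtain ⟨k', rfl⟩ := hd
    rw [TT_mul hm hc]
    have h1 := hx (sgn m c (2 ^ j * k') * 2 ^ j)
    convert h1 using 1
    push_cast
    ring
  · obtain ⟨a, o, ho, hao⟩ := Nat.exists_eq_two_pow_mul_odd hk
    have haj : a < j := by
      by_contra hcon
      apply hd
      rw [hao]
      exact Dvd.dvd.mul_right (pow_dvd_pow 2 (by omega)) _
    obtain ⟨b, hb⟩ : ∃ b, j = b + a + 1 := ⟨j - a - 1, by omega⟩
    have h2 : TT m h j c k = -2 ^ m * ∑ u ∈ range (2 ^ b), sgn m (c + 2 ^ (h + 1) * u) k := by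
      rw [hb, hao]
      exact TT_small (by omega) hc ho
    rw [h2, sub_zero]
    have h1 := hx (-∑ u ∈ range (2 ^ b), sgn m (c + 2 ^ (h + 1) * u) k)
    convert h1 using 1
    push_cast
    ring

lemma term_one {m h j c k : ℕ} (hm : m = h + j) (hc : Odd c) (hk : k ≠ 0) :
    (2 : ℚ) ^ k / k * (TT m h j c k : ℚ) - PP m h j c k ∈ Zt (m + 1) := by
  obtain ⟨a, o, ho, hao⟩ := Nat.exists_eq_two_pow_mul_odd hk
  exact term_gen hm hc hk (Zt_term ho hao (by have := one_le' ho hao; omega))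

lemma term_three {m h j c k : ℕ} (hm : m = h + j) (hc : Odd c) (hk : k ≠ 0) (h1 : k ≠ 1)
    (h2 : k ≠ 2) (h4 : k ≠ 4) :
    (2 : ℚ) ^ k / k * (TT m h j c k : ℚ) - PP m h j c k ∈ Zt (m + 3) := by
  obtain ⟨a, o, ho, hao⟩ := Nat.exists_eq_two_pow_mul_odd hk
  exact term_gen hm hc hk (Zt_term ho hao (by have := three_le ho hao h1 h2 h4; omega))

/-- The total. -/
def QQ (m h j c K : ℕ) : ℚ :=
  ∑ k ∈ range K, (2 : ℚ) ^ (k + 1) / ((k + 1 : ℕ) : ℚ) * (TT m h j c (k + 1) : ℚ)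

def PS (m h j c K : ℕ) : ℚ := ∑ k ∈ range K, PP m h j c (k + 1)

lemma QQ_one {m h j c : ℕ} (hm : m = h + j) (hc : Odd c) (K : ℕ) :
    QQ m h j c K - PS m h j c K ∈ Zt (m + 1) := by
  unfold QQ PS
  rw [← sum_sub_distrib]
  exact AddSubgroup.sum_mem _ fun k _ => term_one hm hc (by omega)

/-- The correction, which occurs only for `j = 2`. -/
def corr (m j : ℕ) : ℚ := if j = 2 then 3 * 2 ^ (m + 1) else 0

lemma QQ_three {m h j c : ℕ} (hm : m = h + j) (hm3 : 3 ≤ m) (hj : 2 ≤ j) (hc : Odd c) (K : ℕ) :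
    QQ m h j c (4 + K) - PS m h j c (4 + K) - corr m j ∈ Zt (m + 3) := by
  have h0 : QQ m h j c (4 + K) - PS m h j c (4 + K) - corr m j =
      ((((2 : ℚ) ^ 1 / (1 : ℕ) * (TT m h j c 1 : ℚ) - PP m h j c 1) +
      ((2 : ℚ) ^ 2 / (2 : ℕ) * (TT m h j c 2 : ℚ) - PP m h j c 2) +
      ((2 : ℚ) ^ 4 / (4 : ℕ) * (TT m h j c 4 : ℚ) - PP m h j c 4)) - corr m j) +
      ((2 : ℚ) ^ 3 / (3 : ℕ) * (TT m h j c 3 : ℚ) - PP m h j c 3) +
      ∑ k ∈ range K, ((2 : ℚ) ^ (4 + k + 1) / ((4 + k + 1 : ℕ) : ℚ) *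
        (TT m h j c (4 + k + 1) : ℚ) - PP m h j c (4 + k + 1)) := by
    unfold QQ PS
    rw [sum_range_add', sum_range_add', sum_sub_distrib]
    simp only [sum_range_succ, sum_range_zero, zero_add]
    ring
  rw [h0]
  refine AddSubgroup.add_mem _ (AddSubgroup.add_mem _ ?_ ?_) ?_
  · -- the three special terms
    obtain ⟨b, rfl⟩ : ∃ b, j = b + 2 := ⟨j - 2, by omega⟩
    have hT1 : TT m h (b + 2) c 1 =
        -2 ^ m * ∑ u ∈ range (2 ^ (b + 1)), sgn m (c + 2 ^ (h + 1) * u) 1 := by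
      have := TT_small (a := 0) (b := b + 1) (k := 1) (m := m) (h := h) (by omega) hc odd_one
      simpa using this
    have hT2 : TT m h (b + 2) c 2 =
        -2 ^ m * ∑ u ∈ range (2 ^ b), sgn m (c + 2 ^ (h + 1) * u) 2 := by
      have := TT_small (a := 1) (b := b) (k := 1) (m := m) (h := h) (by omega) hc odd_one
      simpa using this
    have hP1 : PP m h (b + 2) c 1 = 0 := by
      unfold PP
      rw [if_neg]
      intro hd
      have h1 := Nat.le_of_dvd (by norm_num) hd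
      have h2 : 2 ^ (b + 2) = 4 * 2 ^ b := by ring
      have h3 : 0 < 2 ^ b := by positivity
      omega
    have hP2 : PP m h (b + 2) c 2 = 0 := by
      unfold PP
      rw [if_neg]
      intro hd
      have h1 := Nat.le_of_dvd (by norm_num) hd
      have h2 : 2 ^ (b + 2) = 4 * 2 ^ b := by ring
      have h3 : 0 < 2 ^ b := by positivity
      omega
    obtain ⟨z, hz⟩ := sum_one_two (m := m) (h := h) (b := b) (by omega) hm3 hc
    rw [hT1, hT2, hP1, hP2]
    set A1 := ∑ u ∈ range (2 ^ (b + 1)), sgn m (c + 2 ^ (h + 1) * u) 1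
    set A2 := ∑ u ∈ range (2 ^ b), sgn m (c + 2 ^ (h + 1) * u) 2
    have hz' : (A1 : ℚ) + A2 = 2 ^ b + 4 * z := by
      have : A1 + A2 = 2 ^ b + 4 * z := by linear_combination hz
      exact_mod_cast this
    unfold corr
    by_cases hb : b = 0
    · subst hb
      rw [if_pos rfl]
      have h1 : PP m h (0 + 2) c 4 =
          (sgn m c 4 : ℚ) * ((2 : ℚ) ^ 4 / (4 : ℕ) * (2 ^ 2 * ((c : ℚ) - 2 ^ h))) := by
        unfold PP
        rw [if_pos (by norm_num)]
      have h2 : TT m h (0 + 2) c 4 = sgn m c 4 * (2 ^ 2 * (c - 2 ^ h + 2 ^ m)) := by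
        have := TT_mul (m := m) (h := h) (j := 2) (k := 1) (by omega) hc
        simpa using this
      rw [h1, h2]
      have h3 : (2 : ℚ) ^ (m + 3) * ((2 * sgn m c 4 - z - 1 : ℤ) : ℚ) ∈ Zt (m + 3) := by
        have := Zt_mul (Zt_pow (m + 3)) (Zt_int (2 * sgn m c 4 - z - 1))
        rwa [add_zero] at this
      convert h3 using 1
      have e1 : (2 : ℚ) ^ (m + 3) = 8 * 2 ^ m := by ring
      have e2 : (2 : ℚ) ^ (m + 1) = 2 * 2 ^ m := by ring
      rw [e1, e2]
      push_cast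
      linear_combination (-2 * (2 : ℚ) ^ m) * hz'
    · obtain ⟨b', rfl⟩ : ∃ b', b = b' + 1 := ⟨b - 1, by omega⟩
      rw [if_neg (by omega)]
      have hP4 : PP m h (b' + 1 + 2) c 4 = 0 := by
        unfold PP
        rw [if_neg]
        intro hd
        have h1 := Nat.le_of_dvd (by norm_num) hd
        have h2 : 2 ^ (b' + 1 + 2) = 8 * 2 ^ b' := by ring
        have h3 : 0 < 2 ^ b' := by positivity
        omega
      have hT4 : TT m h (b' + 1 + 2) c 4 =
          -2 ^ m * ∑ u ∈ range (2 ^ b'), sgn m (c + 2 ^ (h + 1) * u) 4 := by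
        have := TT_small (a := 2) (b := b') (k := 1) (m := m) (h := h) (by omega) hc odd_one
        simpa using this
      obtain ⟨z', hz4⟩ := sum_par m 4 (2 ^ b') (fun u => c + 2 ^ (h + 1) * u)
      rw [hP4, hT4]
      set A4 := ∑ u ∈ range (2 ^ b'), sgn m (c + 2 ^ (h + 1) * u) 4
      have hz4' : (A4 : ℚ) = 2 ^ b' + 2 * z' := by
        have : A4 = 2 ^ b' + 2 * z' := by
          have e : A4 - ((2 ^ b' : ℕ) : ℤ) = 2 * z' := hz4
          push_cast at e
          linear_combination e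
        exact_mod_cast this
      have h3 : (2 : ℚ) ^ (m + 3) * ((-2 ^ b' - z - z' : ℤ) : ℚ) ∈ Zt (m + 3) := by
        have := Zt_mul (Zt_pow (m + 3)) (Zt_int (-2 ^ b' - z - z'))
        rwa [add_zero] at this
      convert h3 using 1
      have e1 : (2 : ℚ) ^ (m + 3) = 8 * 2 ^ m := by ring
      have e3 : (2 : ℚ) ^ (b' + 1) = 2 * 2 ^ b' := by ring
      rw [e3] at hz'
      rw [e1]
      push_cast
      linear_combination (-2 * (2 : ℚ) ^ m) * hz' - (4 * (2 : ℚ) ^ m) * hz4'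
  · exact term_three hm hc (by omega) (by omega) (by omega) (by omega)
  · exact AddSubgroup.sum_mem _ fun k _ =>
      term_three hm hc (by omega) (by omega) (by omega) (by omega)

/-- The logarithmic sum. -/
def LS (m j c : ℕ) : ℚ :=
  ∑ r ∈ range (m + 2), (sgn m c (2 ^ j * (r + 1)) : ℚ) * ((2 : ℚ) ^ (2 ^ j * (r + 1)) / (r + 1))

lemma PS_LS_eq (m h j c : ℕ) : PS m h j c (2 ^ j * (m + 2)) = ((c : ℚ) - 2 ^ h) * LS m j c := by
  unfold PS LS
  rw [sum_range_mul', mul_sum]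
  apply sum_congr rfl
  intro x _
  obtain ⟨N, hN⟩ : ∃ N, 2 ^ j = N + 1 := ⟨2 ^ j - 1, by have : 0 < 2 ^ j := by positivity
                                                        omega⟩
  have h1 : ∀ u ∈ range N, PP m h j c (2 ^ j * x + u + 1) = 0 := by
    intro u hu
    rw [mem_range] at hu
    unfold PP
    rw [if_neg]
    intro hd
    have h2 : 2 ^ j ∣ u + 1 := by
      rw [add_assoc] at hd
      exact (Nat.dvd_add_right (Dvd.intro _ rfl)).1 hd
    have := Nat.le_of_dvd (by omega) h2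
    omega
  have h2 : ∑ u ∈ range (2 ^ j), PP m h j c (2 ^ j * x + u + 1) =
      ∑ u ∈ range (N + 1), PP m h j c (2 ^ j * x + u + 1) := by rw [← hN]
  rw [h2, sum_range_succ, sum_eq_zero h1, zero_add]
  have h3 : 2 ^ j * x + N + 1 = 2 ^ j * (x + 1) := by rw [mul_add, mul_one]; omega
  rw [h3]
  unfold PP
  rw [if_pos (Dvd.intro _ rfl)]
  push_cast
  have h4 : (2 : ℚ) ^ j ≠ 0 := by positivity
  have h5 : (x : ℚ) + 1 ≠ 0 := by positivity
  field_simp

lemma PS_LS {m h j : ℕ} (c : ℕ) (hj : 1 ≤ j) :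
    PS m h j c (2 * m + 4) - ((c : ℚ) - 2 ^ h) * LS m j c ∈ Zt (m + 3) := by
  rw [← PS_LS_eq]
  have h0 : 2 ≤ 2 ^ j := by
    calc 2 = 2 ^ 1 := by norm_num
      _ ≤ 2 ^ j := Nat.pow_le_pow_right (by norm_num) hj
  obtain ⟨t, ht⟩ : ∃ t, 2 ^ j * (m + 2) = (2 * m + 4) + t := by
    refine Nat.exists_eq_add_of_le ?_
    calc 2 * m + 4 = 2 * (m + 2) := by ring
      _ ≤ 2 ^ j * (m + 2) := Nat.mul_le_mul_right _ h0
  rw [ht]
  unfold PS
  rw [sum_range_add' _ (2 * m + 4) t]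
  have h1 : ∀ a b : ℚ, a - (a + b) = -b := by intro a b; ring
  rw [h1]
  apply AddSubgroup.neg_mem
  apply AddSubgroup.sum_mem
  intro k _
  unfold PP
  split_ifs
  · obtain ⟨e, o, ho, he⟩ := Nat.exists_eq_two_pow_mul_odd
      (show 2 * m + 4 + k + 1 ≠ 0 by omega)
    have h2 := Zt_term (N := m + 3) ho he (tail_le (m := m) ho he (by omega))
    have h3 := Zt_int_mul (sgn m c (2 * m + 4 + k + 1) * (2 ^ j * (c - 2 ^ h))) h2
    convert h3 using 1
    push_cast
    ring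
  · exact AddSubgroup.zero_mem _

end Pool.Agent.J4.H56.FM
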