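import Pool.Agent.J4.H56.FM.Val

/-!
The index of `2 ^ s - 1` and of `2 ^ s + 1`.
-/

set_option autoImplicit false

open Finset

namespace Pool.Agent.J4.H56.FM

open Pool.Agent.Y875.FP

lemma two_mul_lt {m : ℕ} (hm : 4 ≤ m) : 2 * m + 4 < 2 ^ m := by
  have hbig : ∀ m : ℕ, 4 ≤ m → 2 * m + 4 < 2 ^ m := by
    intro m hm
    induction m, hm using Nat.le_induction with
    | base => norm_num
    | succ m hm ih => rw [pow_succ]; omega
  exact hbig m hm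

lemma exp_eq {m k : ℕ} (hk : k ≤ 2 ^ m) :
    (Nat.fermatNumber m - 1) / 2 ^ k = 2 ^ (2 ^ m - k) := by
  unfold Nat.fermatNumber
  rw [Nat.add_sub_cancel, Nat.pow_div hk (by norm_num)]

/-- Everything for `2 ^ s - 1`. -/
theorem minus {m h j c : ℕ} (hm : m = h + j) (hm4 : 4 ≤ m) (hh : 1 ≤ h) (hj : 1 ≤ j)
    (hc : Odd c) :
    (2 ^ j ≤ m + 2 → (Nat.fermatNumber m).Prime →
      ((2 : ZMod (Nat.fermatNumber m)) ^ (2 ^ j * c) - 1) ^ (2 ^ (2 ^ m - 2 ^ j + 1)) = -1) ∧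
    (m + 3 ≤ 2 ^ j → (Nat.fermatNumber m).Prime →
      ((2 : ZMod (Nat.fermatNumber m)) ^ (2 ^ j * c) - 1) ^ (2 ^ (2 ^ m - (m + 1))) = 1) ∧
    (2 ≤ j → ∃ E, Cong m h j c E) ∧
    (2 ≤ j → (Nat.fermatNumber m).Prime → ∀ E, Cong m h j c E →
      ((2 : ZMod (Nat.fermatNumber m)) ^ (2 ^ j * c) - 1) ^ (2 ^ (2 ^ m - (m + 1))) = 2 ^ E) := by
  have h1 : ∀ i, ∃ E, IsInd m 2 (c + 2 ^ (h + 1) * i) (2 * m + 4) E := fun i =>
    exists_isInd m _ (2 * m + 2)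
  choose e he using h1
  have hb := two_mul_lt hm4
  have hval : (Nat.fermatNumber m).Prime →
      ((2 : ZMod (Nat.fermatNumber m)) ^ (2 ^ j * c) - 1) ^ (2 ^ (2 ^ m - (m + 1))) =
        2 ^ (∑ i ∈ range (2 ^ j), e i) := by
    intro hF
    obtain ⟨j', rfl⟩ : ∃ j', j = j' + 1 := ⟨j - 1, by omega⟩
    exact value hm hm4 hc e he hF
  have hjm : 2 ^ j ≤ 2 ^ m := Nat.pow_le_pow_right (by norm_num) (by omega)
  refine ⟨?_, ?_, ?_, ?_⟩
  · intro hjs hF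
    have h2 : ∃ w : ℕ, Odd w ∧ (∑ i ∈ range (2 ^ j), e i) = 2 ^ (2 ^ j - 2) * w := by
      rcases Nat.lt_or_ge j 2 with hj2 | hj2
      · have hj1 : j = 1 := by omega
        subst hj1
        have h3 := Zt_mono (show 2 ^ 1 + 1 ≤ m + 1 by omega) (cong_one hm (le_refl 1) hc e he)
        exact val_of (x := 0) hh (le_refl 1) hc (by rw [add_zero]; exact h3)
          (AddSubgroup.zero_mem _)
      · have h3 := Zt_mono (show 2 ^ j + 1 ≤ m + 3 by omega)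
          (cong_ex hm (by omega) hj2 hc e he)
        refine val_of hh hj hc h3 ?_
        unfold corr
        split_ifs with hj3
        · subst hj3
          have h4 := Zt_int_mul 3 (Zt_pow (m + 1))
          have h5 := Zt_mono (show 2 ^ 2 + 1 ≤ m + 1 by omega) h4
          rwa [Int.cast_ofNat] at h5
        · exact AddSubgroup.zero_mem _
    obtain ⟨w, hw, hE⟩ := h2
    have h3 := hval hF
    rw [hE] at h3
    have h4 := pow_of (m := m) hw (by omega) (by omega) h3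
    have h0 : 2 ≤ 2 ^ j := by
      calc 2 = 2 ^ 1 := by norm_num
        _ ≤ 2 ^ j := Nat.pow_le_pow_right (by norm_num) hj
    have h5 : 2 ^ m - 1 - (2 ^ j - 2) = 2 ^ m - 2 ^ j + 1 := by omega
    rwa [h5] at h4
  · intro hjb hF
    have hj2 : 2 ≤ j := by
      by_contra hcon
      have hj1 : j = 1 := by omega
      subst hj1
      omega
    have hj3 : j ≠ 2 := by
      rintro rfl
      omega
    have h3 := cong_ex hm (by omega) hj2 hc e he
    have h4 : Cong m h j c 0 := by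
      unfold Cong corr
      rw [if_neg hj3]
      have h5 := AddSubgroup.neg_mem _ (Zt_int_mul ((c : ℤ) - 2 ^ h) (LS_big c hjb))
      convert h5 using 1
      push_cast
      ring
    rw [hval hF, cong_unique h3 h4, pow_zero]
  · intro hj2
    exact ⟨_, cong_ex hm (by omega) hj2 hc e he⟩
  · intro hj2 hF E hE
    rw [hval hF]
    exact cong_unique (cong_ex hm (by omega) hj2 hc e he) hE

/-- The reduction of `2 ^ s + 1` to `2 ^ s' - 1`. -/
lemma plus_eq {m h j c : ℕ} (hm : m = h + j) :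
    (2 : ZMod (Nat.fermatNumber m)) ^ (2 ^ j * (c + 2 ^ h)) - 1 =
      -((2 : ZMod (Nat.fermatNumber m)) ^ (2 ^ j * c) + 1) := by
  have h1 : 2 ^ j * (c + 2 ^ h) = 2 ^ j * c + 2 ^ m := by
    rw [hm, pow_add]; ring
  rw [h1, pow_add, two_pow_two_pow]
  ring

lemma cong_plus {m h j c E : ℕ} (hm : m = h + j) (hh : 1 ≤ h) (hc : Odd c) :
    Cong m h j (c + 2 ^ h) E ↔
      4 * (E : ℚ) - ((c : ℚ) * (∑ r ∈ range (m + 2), (-1 : ℚ) ^ (r + 1) *
      ((sgn m c (2 ^ j * (r + 1)) : ℚ) * ((2 : ℚ) ^ (2 ^ j * (r + 1)) / (r + 1)))) + corr m j) ∈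
        Zt (m + 3) := by
  unfold Cong
  rw [LS_plus hm hh hc]
  have h1 : (((c + 2 ^ h : ℕ) : ℚ) - 2 ^ h) = c := by push_cast; ring
  rw [h1]

/-- Everything for `2 ^ s + 1`. -/
theorem plus {m h j c : ℕ} (hm : m = h + j) (hm4 : 4 ≤ m) (hh : 1 ≤ h) (hj : 1 ≤ j)
    (hc : Odd c) :
    (2 ^ j ≤ m + 2 → (Nat.fermatNumber m).Prime →
      ((2 : ZMod (Nat.fermatNumber m)) ^ (2 ^ j * c) + 1) ^ (2 ^ (2 ^ m - 2 ^ j + 1)) = -1) ∧
    (m + 3 ≤ 2 ^ j → (Nat.fermatNumber m).Prime →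
      ((2 : ZMod (Nat.fermatNumber m)) ^ (2 ^ j * c) + 1) ^ (2 ^ (2 ^ m - (m + 1))) = 1) ∧
    (2 ≤ j → ∃ E, Cong m h j (c + 2 ^ h) E) ∧
    (2 ≤ j → (Nat.fermatNumber m).Prime → ∀ E, Cong m h j (c + 2 ^ h) E →
      ((2 : ZMod (Nat.fermatNumber m)) ^ (2 ^ j * c) + 1) ^ (2 ^ (2 ^ m - (m + 1))) = 2 ^ E) := by
  have hc' : Odd (c + 2 ^ h) := hc.add_even (Even.pow_of_ne_zero even_two (by omega))
  have h1 := minus hm hm4 hh hj hc'
  have hb := two_mul_lt hm4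
  rw [plus_eq hm] at h1
  have e1 : Even (2 ^ (2 ^ m - 2 ^ j + 1)) := Even.pow_of_ne_zero even_two (by omega)
  have e2 : Even (2 ^ (2 ^ m - (m + 1))) := Even.pow_of_ne_zero even_two (by omega)
  rw [e1.neg_pow, e2.neg_pow] at h1
  exact h1

end Pool.Agent.J4.H56.FM
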