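import Pool.Agent.J4.H56.FM.Base

/-!
Sums of the signs over an arithmetic progression.
-/

set_option autoImplicit false

open Finset

namespace Pool.Agent.J4.H56.FM

open Pool.Agent.Y875.FP

lemma sum_range_add' {M : Type*} [AddCommMonoid M] (f : ℕ → M) (a b : ℕ) :
    ∑ i ∈ range (a + b), f i = ∑ i ∈ range a, f i + ∑ i ∈ range b, f (a + i) := by
  induction b with
  | zero => simp
  | succ b ih => rw [← add_assoc, sum_range_succ, ih, sum_range_succ, add_assoc]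

lemma sum_range_mul' {M : Type*} [AddCommMonoid M] (f : ℕ → M) (N K : ℕ) :
    ∑ i ∈ range (N * K), f i = ∑ x ∈ range K, ∑ u ∈ range N, f (N * x + u) := by
  induction K with
  | zero => simp
  | succ K ih => rw [Nat.mul_succ, sum_range_add', ih, sum_range_succ]

lemma gauss (N : ℕ) : 2 * ∑ i ∈ range N, (i : ℤ) = N * (N - 1) := by
  induction N with
  | zero => simp
  | succ N ih => rw [sum_range_succ, mul_add, ih]; push_cast; ring

lemma alt0 (M : ℕ) : ∑ x ∈ range (2 * M), (-1 : ℤ) ^ x = 0 := by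
  induction M with
  | zero => simp
  | succ M ih =>
    rw [Nat.mul_succ, sum_range_succ, sum_range_succ, ih, pow_succ, pow_mul]
    norm_num

lemma alt1 (M : ℕ) : ∑ x ∈ range (2 * M), (-1 : ℤ) ^ x * x = -M := by
  induction M with
  | zero => simp
  | succ M ih =>
    rw [Nat.mul_succ, sum_range_succ, sum_range_succ, ih, pow_succ, pow_mul]
    push_cast
    norm_num
    ring

/-- The weighted sum of the signs. -/
def TT (m h j c k : ℕ) : ℤ :=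
  ∑ i ∈ range (2 ^ j), ((c + 2 ^ (h + 1) * i : ℕ) : ℤ) * sgn m (c + 2 ^ (h + 1) * i) k

lemma odd_r {c : ℕ} (hc : Odd c) (h i : ℕ) : Odd (c + 2 ^ (h + 1) * i) := by
  apply hc.add_even
  exact (Even.pow_of_ne_zero even_two (by omega)).mul_right _

lemma TT_mul {m h j c k : ℕ} (hm : m = h + j) (hc : Odd c) :
    TT m h j c (2 ^ j * k) = sgn m c (2 ^ j * k) * (2 ^ j * (c - 2 ^ h + 2 ^ m)) := by
  unfold TT
  have h1 : ∀ i ∈ range (2 ^ j), ((c + 2 ^ (h + 1) * i : ℕ) : ℤ) *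
      sgn m (c + 2 ^ (h + 1) * i) (2 ^ j * k) =
      (c : ℤ) * sgn m c (2 ^ j * k) + (2 ^ (h + 1) * sgn m c (2 ^ j * k)) * (i : ℤ) := by
    intro i _
    rw [sgn_eq, sgn_eq, chi_same (n := h + 1) (by omega) (by omega) hc i]
    push_cast
    ring
  rw [sum_congr rfl h1, sum_add_distrib, sum_const, card_range, ← mul_sum]
  have h2 := gauss (2 ^ j)
  push_cast at h2
  rw [hm, nsmul_eq_mul]
  push_cast
  rw [pow_add, pow_add]
  linear_combination (2 ^ h * sgn (h + j) c (2 ^ j * k)) * h2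

lemma TT_small {m h a b c k : ℕ} (hm : m = h + (b + a + 1)) (hc : Odd c) (hk : Odd k) :
    TT m h (b + a + 1) c (2 ^ a * k) =
      -2 ^ m * ∑ u ∈ range (2 ^ b), sgn m (c + 2 ^ (h + 1) * u) (2 ^ a * k) := by
  unfold TT
  have h0 : 2 ^ (b + a + 1) = 2 ^ b * (2 * 2 ^ a) := by ring
  rw [h0, sum_range_mul', sum_comm, mul_sum]
  apply sum_congr rfl
  intro u _
  have h1 : ∀ x ∈ range (2 * 2 ^ a), ((c + 2 ^ (h + 1) * (2 ^ b * x + u) : ℕ) : ℤ) *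
      sgn m (c + 2 ^ (h + 1) * (2 ^ b * x + u)) (2 ^ a * k) =
      (((c + 2 ^ (h + 1) * u : ℕ) : ℤ) * sgn m (c + 2 ^ (h + 1) * u) (2 ^ a * k)) * (-1) ^ x +
      (2 ^ (h + 1 + b) * sgn m (c + 2 ^ (h + 1) * u) (2 ^ a * k)) * ((-1 : ℤ) ^ x * x) := by
    intro x _
    have e1 : c + 2 ^ (h + 1) * (2 ^ b * x + u) = (c + 2 ^ (h + 1) * u) + 2 ^ (h + 1 + b) * x := by
      ring
    rw [e1, sgn_eq, sgn_eq, chi_steps (n := h + 1 + b) (by omega) (by omega) (odd_r hc h u) hk x]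
    push_cast
    ring
  rw [sum_congr rfl h1, sum_add_distrib, ← mul_sum, ← mul_sum, alt0, alt1, hm]
  push_cast
  ring

/-- Inverse of a shifted residue. -/
lemma inv_shift {n r : ℕ} (hn : 2 ≤ n) (hr : Odd r) :
    ((r + 2 ^ n : ℕ) : ZMod (2 ^ (n + 1 + 1)))⁻¹ = ((r : ℕ) : ZMod (2 ^ (n + 1 + 1)))⁻¹ - 2 ^ n := by
  have hr' : Odd (r + 2 ^ n) := by
    apply hr.add_even
    exact Even.pow_of_ne_zero even_two (by omega)
  have h1 := inv_mul_odd (n + 1) hr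
  have h2 := inv_mul_odd (n + 1) hr'
  have h6 := two_pow_zero (n + 1)
  obtain ⟨q, hq⟩ := Nat.exists_eq_add_of_le hn
  have h7 : (2 : ZMod (2 ^ (n + 1 + 1))) ^ n * 2 ^ n = 0 := by
    have : (2 : ZMod (2 ^ (n + 1 + 1))) ^ n * 2 ^ n = 2 ^ (n + 1 + 1) * 2 ^ q := by
      rw [← pow_add, ← pow_add]
      congr 1
      omega
    rw [this, h6, zero_mul]
  obtain ⟨t, ht⟩ := hr
  have h8 : ((r : ℕ) : ZMod (2 ^ (n + 1 + 1))) = 2 * t + 1 := by rw [ht]; push_cast; ring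
  have h9 : (2 : ZMod (2 ^ (n + 1 + 1))) ^ n * 4 = 0 := by
    have : (2 : ZMod (2 ^ (n + 1 + 1))) ^ n * 4 = 2 ^ (n + 1 + 1) := by ring
    rw [this, h6]
  generalize hX : ((r : ℕ) : ZMod (2 ^ (n + 1 + 1)))⁻¹ = X at *
  generalize hY : ((r + 2 ^ n : ℕ) : ZMod (2 ^ (n + 1 + 1)))⁻¹ = Y at *
  have hR' : ((r + 2 ^ n : ℕ) : ZMod (2 ^ (n + 1 + 1))) = (r : ZMod (2 ^ (n + 1 + 1))) + 2 ^ n := by
    push_cast; rfl
  rw [hR'] at h2
  rw [h8] at h1 h2
  -- `(R + P) (X - P) = 1`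
  have h10 : (2 * (t : ZMod (2 ^ (n + 1 + 1))) + 1 + 2 ^ n) * (X - 2 ^ n) = 1 := by
    have h11 : (2 : ZMod (2 ^ (n + 1 + 1))) ^ n * X = 2 ^ n * (2 * t + 1) := by
      linear_combination (2 : ZMod (2 ^ (n + 1 + 1))) ^ n * (2 * t + 1) * h1 -
        (t * t + t) * X * h9
    linear_combination h1 + h11 - h7
  linear_combination (-Y) * h10 + (X - 2 ^ n) * h2

/-- The sums for `k = 1` and `k = 2`. -/
lemma sum_one_two {m h b c : ℕ} (hm : m = h + (b + 2)) (hm3 : 3 ≤ m) (hc : Odd c) :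
    (4 : ℤ) ∣ ∑ u ∈ range (2 ^ (b + 1)), sgn m (c + 2 ^ (h + 1) * u) 1 +
      ∑ u ∈ range (2 ^ b), sgn m (c + 2 ^ (h + 1) * u) 2 - 2 ^ b := by
  obtain ⟨n, rfl⟩ : ∃ n, m = n + 1 := ⟨m - 1, by omega⟩
  have h0 : 2 ^ (b + 1) = 2 ^ b + 2 ^ b := by ring
  have h1 : ∑ u ∈ range (2 ^ (b + 1)), sgn (n + 1) (c + 2 ^ (h + 1) * u) 1 +
      ∑ u ∈ range (2 ^ b), sgn (n + 1) (c + 2 ^ (h + 1) * u) 2 - 2 ^ b =
      ∑ u ∈ range (2 ^ b), (sgn (n + 1) (c + 2 ^ (h + 1) * u) 1 +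
        sgn (n + 1) (c + 2 ^ (h + 1) * (2 ^ b + u)) 1 + sgn (n + 1) (c + 2 ^ (h + 1) * u) 2 - 1) := by
    rw [h0, sum_range_add', sum_sub_distrib, sum_add_distrib, sum_add_distrib, sum_const,
      card_range]
    simp only [nsmul_eq_mul, mul_one, Nat.cast_pow, Nat.cast_ofNat]
  rw [h1]
  apply dvd_sum
  intro u _
  have e1 : c + 2 ^ (h + 1) * (2 ^ b + u) = (c + 2 ^ (h + 1) * u) + 2 ^ n := by
    have : 2 ^ n = 2 ^ (h + 1) * 2 ^ b := by rw [← pow_add]; congr 1; omega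
    rw [this]; ring
  have hr := odd_r hc h u
  have h2 := chi_three n (((c + 2 ^ (h + 1) * u : ℕ) : ZMod (2 ^ (n + 1 + 1)))⁻¹)
  rw [← inv_shift (by omega) hr] at h2
  rw [e1, sgn_eq, sgn_eq, sgn_eq]
  have e2 : ((1 : ℕ) : ZMod (2 ^ (n + 1 + 1))) = 1 := by push_cast; rfl
  have e3 : ((2 : ℕ) : ZMod (2 ^ (n + 1 + 1))) = 2 := by push_cast; rfl
  rw [e2, e3, one_mul, one_mul]
  exact h2

/-- The parity of a sum of signs. -/
lemma sum_par (m k N : ℕ) (r : ℕ → ℕ) :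
    (2 : ℤ) ∣ ∑ u ∈ range N, sgn m (r u) k - N := by
  induction N with
  | zero => simp
  | succ N ih =>
    rw [sum_range_succ]
    push_cast
    obtain ⟨z, hz⟩ := ih
    rcases sgn_or m (r N) k with h | h
    · exact ⟨z, by rw [h]; linear_combination hz⟩
    · exact ⟨z - 1, by rw [h]; linear_combination hz⟩

end Pool.Agent.J4.H56.FM
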