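import Pool.Agent.J4.H56.FM.Index

/-!
The value of `(2 ^ s - 1) ^ T`, and the converse.
-/

set_option autoImplicit false

open Finset

namespace Pool.Agent.J4.H56.FM

open Pool.Agent.Y875.FP

lemma prod_range_add' {M : Type*} [CommMonoid M] (f : ℕ → M) (a b : ℕ) :
    ∏ i ∈ range (a + b), f i = (∏ i ∈ range a, f i) * ∏ i ∈ range b, f (a + i) := by
  induction b with
  | zero => simp
  | succ b ih => rw [← add_assoc, prod_range_succ, ih, prod_range_succ, mul_assoc]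

lemma prod_lem {R : Type*} [CommRing R] (j : ℕ) : ∀ z w : R, w ^ (2 ^ j) = -1 →
    ∏ i ∈ range (2 ^ (j + 1)), (1 - z * w ^ i) = 1 - z ^ (2 ^ (j + 1)) := by
  induction j with
  | zero =>
    intro z w h
    rw [pow_zero, pow_one] at h
    rw [h, zero_add, pow_one, prod_range_succ, prod_range_one]
    ring
  | succ j ih =>
    intro z w h
    have h1 : 2 ^ (j + 1 + 1) = 2 ^ (j + 1) + 2 ^ (j + 1) := by ring
    have h2 : ∏ i ∈ range (2 ^ (j + 1)), (1 - z * w ^ (2 ^ (j + 1) + i)) =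
        ∏ i ∈ range (2 ^ (j + 1)), (1 + z * w ^ i) := by
      apply prod_congr rfl
      intro i _
      rw [pow_add, h]
      ring
    have h3 := ih (z ^ 2) (w ^ 2) (by rw [← pow_mul, ← pow_succ']; exact h)
    have h4 : z ^ (2 ^ (j + 1 + 1)) = (z ^ 2) ^ (2 ^ (j + 1)) := by
      rw [← pow_mul, ← pow_succ']
    rw [h4, ← h3]
    nth_rewrite 1 [h1]
    rw [prod_range_add', h2, ← prod_mul_distrib]
    apply prod_congr rfl
    intro i _
    rw [← pow_mul, mul_comm 2 i, pow_mul]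
    ring

lemma two_pow_two_pow (m : ℕ) : (2 : ZMod (Nat.fermatNumber m)) ^ (2 ^ m) = -1 := by
  have h6 := xpow (m := m) (p := Nat.fermatNumber m) (x := 2) rfl
  push_cast at h6
  exact h6

/-- The value of `(2 ^ s - 1) ^ T` for `s = 2 ^ j c`. -/
lemma value {m h j c : ℕ} (hm : m = h + (j + 1)) (hm4 : 4 ≤ m) (hc : Odd c) (e : ℕ → ℕ)
    (he : ∀ i, IsInd m 2 (c + 2 ^ (h + 1) * i) (2 * m + 4) (e i))
    (hF : (Nat.fermatNumber m).Prime) :
    ((2 : ZMod (Nat.fermatNumber m)) ^ (2 ^ (j + 1) * c) - 1) ^ (2 ^ (2 ^ m - (m + 1))) =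
      2 ^ (∑ i ∈ range (2 ^ (j + 1)), e i) := by
  have hy := two_pow_two_pow m
  have h1 : ((2 : ZMod (Nat.fermatNumber m)) ^ (2 ^ (h + 1))) ^ (2 ^ j) = -1 := by
    rw [← pow_mul, ← pow_add, ← hy]
    congr 2
    omega
  have h2 := prod_lem j ((2 : ZMod (Nat.fermatNumber m)) ^ c) _ h1
  have h3 : ∏ i ∈ range (2 ^ (j + 1)), ((2 : ZMod (Nat.fermatNumber m)) ^
      (c + 2 ^ (h + 1) * i) - 1) = -((2 : ZMod (Nat.fermatNumber m)) ^ (2 ^ (j + 1) * c) - 1) := by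
    have h4 : ∀ i ∈ range (2 ^ (j + 1)), ((2 : ZMod (Nat.fermatNumber m)) ^
        (c + 2 ^ (h + 1) * i) - 1) = (-1) * (1 - (2 : ZMod (Nat.fermatNumber m)) ^ c *
          ((2 : ZMod (Nat.fermatNumber m)) ^ (2 ^ (h + 1))) ^ i) := by
      intro i _
      rw [pow_add, pow_mul]
      ring
    rw [prod_congr rfl h4, prod_mul_distrib, h2, prod_const, card_range,
      Even.neg_one_pow (Even.pow_of_ne_zero even_two (by omega)), ← pow_mul, mul_comm c]
    ring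
  have hbig : m + 1 < 2 ^ m := by
    have : ∀ m : ℕ, 4 ≤ m → m + 1 < 2 ^ m := by
      intro m hm
      induction m, hm using Nat.le_induction with
      | base => norm_num
      | succ m hm ih => rw [pow_succ]; omega
    exact this m hm4
  have hTe : Even (2 ^ (2 ^ m - (m + 1))) := Even.pow_of_ne_zero even_two (by omega)
  have h5 := congrArg (· ^ (2 ^ (2 ^ m - (m + 1)))) h3
  simp only [hTe.neg_pow] at h5
  rw [← h5, ← prod_pow, ← prod_pow_eq_pow_sum]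
  apply prod_congr rfl
  intro i _
  exact mersenne_index hm4 (odd_r hc h i) (he i) hF

lemma sum_cong {m h j c : ℕ} (e : ℕ → ℕ)
    (he : ∀ i, IsInd m 2 (c + 2 ^ (h + 1) * i) (2 * m + 4) (e i)) :
    4 * ((∑ i ∈ range (2 ^ j), e i : ℕ) : ℚ) - QQ m h j c (2 * m + 4) ∈ Zt (m + 3) := by
  have h1 : QQ m h j c (2 * m + 4) = ∑ i ∈ range (2 ^ j), ((c + 2 ^ (h + 1) * i : ℕ) : ℚ) *
      AA m 2 (c + 2 ^ (h + 1) * i) (2 * m + 4) := by
    unfold QQ TT AA
    push_cast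
    simp only [mul_sum]
    rw [sum_comm]
    apply sum_congr rfl
    intro i _
    apply sum_congr rfl
    intro k _
    ring
  rw [h1]
  push_cast
  rw [mul_sum, ← sum_sub_distrib]
  apply AddSubgroup.sum_mem
  intro i _
  obtain ⟨d, n, hd, h2⟩ := he i
  refine ⟨d, n, hd, ?_⟩
  rw [← h2]
  push_cast
  ring

/-- The predicted index. -/
def Cong (m h j c E : ℕ) : Prop :=
  4 * (E : ℚ) - (((c : ℚ) - 2 ^ h) * LS m j c + corr m j) ∈ Zt (m + 3)

lemma cong_ex {m h j c : ℕ} (hm : m = h + j) (hm3 : 3 ≤ m) (hj : 2 ≤ j) (hc : Odd c) (e : ℕ → ℕ)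
    (he : ∀ i, IsInd m 2 (c + 2 ^ (h + 1) * i) (2 * m + 4) (e i)) :
    Cong m h j c (∑ i ∈ range (2 ^ j), e i) := by
  have h1 := sum_cong (m := m) (j := j) e he
  have h2 := QQ_three hm hm3 hj hc (2 * m)
  have h3 : 4 + 2 * m = 2 * m + 4 := by ring
  rw [h3] at h2
  have h4 := PS_LS (m := m) (h := h) c (show 1 ≤ j by omega)
  have h5 := AddSubgroup.add_mem _ (AddSubgroup.add_mem _ h1 h2) h4
  unfold Cong
  convert h5 using 1
  ring

lemma cong_one {m h j c : ℕ} (hm : m = h + j) (hj : 1 ≤ j) (hc : Odd c) (e : ℕ → ℕ)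
    (he : ∀ i, IsInd m 2 (c + 2 ^ (h + 1) * i) (2 * m + 4) (e i)) :
    4 * ((∑ i ∈ range (2 ^ j), e i : ℕ) : ℚ) - ((c : ℚ) - 2 ^ h) * LS m j c ∈ Zt (m + 1) := by
  have h1 := Zt_mono (show m + 1 ≤ m + 3 by omega) (sum_cong (m := m) (j := j) e he)
  have h2 := QQ_one hm hc (2 * m + 4)
  have h4 := Zt_mono (show m + 1 ≤ m + 3 by omega) (PS_LS (m := m) (h := h) c hj)
  have h5 := AddSubgroup.add_mem _ (AddSubgroup.add_mem _ h1 h2) h4
  convert h5 using 1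
  ring

lemma cong_unique {m h j c E E' : ℕ} (h1 : Cong m h j c E) (h2 : Cong m h j c E') :
    (2 : ZMod (Nat.fermatNumber m)) ^ E = 2 ^ E' := by
  have h3 := AddSubgroup.sub_mem _ h1 h2
  have h4 : 4 * (E : ℚ) - (((c : ℚ) - 2 ^ h) * LS m j c + corr m j) -
      (4 * (E' : ℚ) - (((c : ℚ) - 2 ^ h) * LS m j c + corr m j)) = ((4 * (E - E') : ℤ) : ℚ) := by
    push_cast; ring
  rw [h4, Zt_cast] at h3
  have h5 : (2 : ℤ) ^ (m + 1) ∣ E - E' := by
    have e1 : (2 : ℤ) ^ (m + 3) = 4 * 2 ^ (m + 1) := by ring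
    rw [e1] at h3
    exact (mul_dvd_mul_iff_left (by norm_num)).1 h3
  have hy : (2 : ZMod (Nat.fermatNumber m)) ^ (2 ^ (m + 1)) = 1 := by
    rw [pow_succ, pow_mul, two_pow_two_pow]; norm_num
  have h6 : ∀ a b : ℕ, a ≤ b → (2 : ℤ) ^ (m + 1) ∣ (b : ℤ) - a →
      (2 : ZMod (Nat.fermatNumber m)) ^ a = 2 ^ b := by
    intro a b hab hd
    have h7 : 2 ^ (m + 1) ∣ b - a := by
      have : (((2 : ℕ) ^ (m + 1) : ℕ) : ℤ) ∣ ((b - a : ℕ) : ℤ) := by
        rw [Nat.cast_sub hab]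
        push_cast
        exact hd
      exact_mod_cast this
    obtain ⟨t, ht⟩ := h7
    have h8 : b = a + 2 ^ (m + 1) * t := by omega
    rw [h8, pow_add, pow_mul, hy, one_pow, mul_one]
  rcases le_total E E' with h | h
  · exact h6 E E' h (by have := dvd_neg.2 h5; rwa [neg_sub] at this)
  · exact (h6 E' E h h5).symm

/-- The valuation of the sum. -/
lemma LS_val {m j : ℕ} (c : ℕ) (hj : 1 ≤ j) : LS m j c - 2 ^ (2 ^ j) ∈ Zt (2 ^ j + 1) := by
  unfold LS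
  rw [sum_range_succ' _ (m + 1)]
  have h1 : ∀ a b c : ℚ, a + b - c = a + (b - c) := by intro a b c; ring
  rw [h1]
  apply AddSubgroup.add_mem
  · apply AddSubgroup.sum_mem
    intro r _
    have h0 : 2 ≤ 2 ^ j := by
      calc 2 = 2 ^ 1 := by norm_num
        _ ≤ 2 ^ j := Nat.pow_le_pow_right (by norm_num) hj
    obtain ⟨e, o, ho, he⟩ := Nat.exists_eq_two_pow_mul_odd (show r + 1 + 1 ≠ 0 by omega)
    have h2 : e + 1 ≤ r + 1 + 1 := one_le' ho he
    have h3 : 2 ^ j + 1 + e ≤ 2 ^ j * (r + 1 + 1) := by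
      have : 2 * (r + 1) ≤ 2 ^ j * (r + 1) := Nat.mul_le_mul_right _ h0
      have h4 : 2 ^ j * (r + 1 + 1) = 2 ^ j * (r + 1) + 2 ^ j := by ring
      omega
    have h5 := Zt_int_mul (sgn m c (2 ^ j * (r + 1 + 1))) (Zt_term (N := 2 ^ j + 1) ho he h3)
    convert h5 using 1
    push_cast
    ring
  · have h2 : (2 : ℚ) ^ (2 ^ j) ∈ Zt (2 ^ j) := Zt_pow _
    rcases sgn_or m c (2 ^ j * (0 + 1)) with h | h
    · rw [h]
      have : ((1 : ℤ) : ℚ) * ((2 : ℚ) ^ (2 ^ j * (0 + 1)) / ((0 : ℕ) + 1)) - 2 ^ (2 ^ j) = 0 := by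
        simp
      rw [this]
      exact AddSubgroup.zero_mem _
    · rw [h]
      have h3 : ((-1 : ℤ) : ℚ) * ((2 : ℚ) ^ (2 ^ j * (0 + 1)) / ((0 : ℕ) + 1)) - 2 ^ (2 ^ j) =
          -(2 : ℚ) ^ (2 ^ j + 1) := by
        rw [pow_succ]; push_cast; simp; ring
      rw [h3]
      exact AddSubgroup.neg_mem _ (Zt_pow _)

lemma LS_big {m j : ℕ} (c : ℕ) (hj : m + 3 ≤ 2 ^ j) : LS m j c ∈ Zt (m + 3) := by
  unfold LS
  apply AddSubgroup.sum_mem
  intro r _
  obtain ⟨e, o, ho, he⟩ := Nat.exists_eq_two_pow_mul_odd (show r + 1 ≠ 0 by omega)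
  have h2 : e + 1 ≤ r + 1 := one_le' ho he
  have h3 : m + 3 + e ≤ 2 ^ j * (r + 1) := by
    have h6 : (m + 3) * (r + 1) ≤ 2 ^ j * (r + 1) := Nat.mul_le_mul_right _ hj
    have h7 : (m + 3) * (r + 1) = (m + 3) + r + (m + 2) * r := by ring
    have h8 : 0 ≤ (m + 2) * r := Nat.zero_le _
    omega
  have h5 := Zt_int_mul (sgn m c (2 ^ j * (r + 1))) (Zt_term (N := m + 3) ho he h3)
  convert h5 using 1
  push_cast
  ring

lemma val_of {m h j c E : ℕ} (hh : 1 ≤ h) (hj : 1 ≤ j) (hc : Odd c) {x : ℚ}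
    (h1 : 4 * (E : ℚ) - (((c : ℚ) - 2 ^ h) * LS m j c + x) ∈ Zt (2 ^ j + 1))
    (hx : x ∈ Zt (2 ^ j + 1)) : ∃ w : ℕ, Odd w ∧ E = 2 ^ (2 ^ j - 2) * w := by
  have h0 : 2 ≤ 2 ^ j := by
    calc 2 = 2 ^ 1 := by norm_num
      _ ≤ 2 ^ j := Nat.pow_le_pow_right (by norm_num) hj
  have h2 := Zt_int_mul ((c : ℤ) - 2 ^ h) (LS_val (m := m) c hj)
  have hodd : Odd ((c : ℤ) - 2 ^ h) := by
    have h3 : Odd (c : ℤ) := by exact_mod_cast hc
    exact h3.sub_even (Even.pow_of_ne_zero even_two (by omega))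
  obtain ⟨t, ht⟩ := hodd
  have h3 : (2 : ℚ) ^ (2 ^ j + 1) * (t : ℤ) ∈ Zt (2 ^ j + 1) := by
    have := Zt_mul (Zt_pow (2 ^ j + 1)) (Zt_int t)
    rwa [add_zero] at this
  have h4 := AddSubgroup.add_mem _ (AddSubgroup.add_mem _ (AddSubgroup.add_mem _ h1 h2) hx) h3
  have h5 : 4 * (E : ℚ) - (((c : ℚ) - 2 ^ h) * LS m j c + x) +
      (((c : ℤ) - 2 ^ h : ℤ) : ℚ) * (LS m j c - 2 ^ (2 ^ j)) + x + (2 : ℚ) ^ (2 ^ j + 1) * (t : ℤ) =
      ((4 * E - 2 ^ (2 ^ j) : ℤ) : ℚ) := by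
    have ht' : (c : ℚ) - 2 ^ h = 2 * t + 1 := by exact_mod_cast ht
    push_cast
    rw [pow_succ, ht']
    ring
  rw [h5, Zt_cast] at h4
  obtain ⟨z, hz⟩ := h4
  obtain ⟨v, hv⟩ : ∃ v, 2 ^ j = v + 2 := ⟨2 ^ j - 2, by omega⟩
  rw [hv] at hz ⊢
  have h6 : (E : ℤ) = 2 ^ v * (2 * z + 1) := by
    have e1 : (2 : ℤ) ^ (v + 2 + 1) = 8 * 2 ^ v := by ring
    have e2 : (2 : ℤ) ^ (v + 2) = 4 * 2 ^ v := by ring
    rw [e1, e2] at hz
    linarith
  have h7 : 0 ≤ 2 * z + 1 := by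
    by_contra hcon
    push Not at hcon
    have h8 : (0 : ℤ) ≤ E := by positivity
    have h9 : (0 : ℤ) < 2 ^ v := by positivity
    nlinarith
  obtain ⟨w, hw⟩ := Int.eq_ofNat_of_zero_le h7
  refine ⟨w, ?_, ?_⟩
  · have : Odd (w : ℤ) := ⟨z, by rw [← hw]⟩
    exact_mod_cast this
  · rw [hw] at h6
    have h9 : v + 2 - 2 = v := by omega
    rw [h9]
    exact_mod_cast h6

/-- The converse. -/
lemma conv_pow {m n : ℕ} (hn : 2 ^ m < 2 * (n + 1)) {b : ZMod (Nat.fermatNumber m)}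
    (h : b ^ (2 ^ n) = -1) : (Nat.fermatNumber m).Prime := by
  by_contra hnp
  have hF3 := Nat.three_le_fermatNumber m
  have hp : (Nat.minFac (Nat.fermatNumber m)).Prime := Nat.minFac_prime (by omega)
  have hsq := Nat.minFac_sq_le_self (by omega) hnp
  have hdvd := Nat.minFac_dvd (Nat.fermatNumber m)
  set p := Nat.minFac (Nat.fermatNumber m) with hpdef
  have : Fact p.Prime := ⟨hp⟩
  set b' : ZMod p := ZMod.castHom hdvd (ZMod p) b with hb'
  have h1 : b' ^ (2 ^ n) = -1 := by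
    rw [hb', ← map_pow, h, map_neg, map_one]
  have hord : orderOf b' = 2 ^ (n + 1) := by
    apply orderOf_eq_prime_pow
    · rw [h1]
      have : Fact (2 < p) := ⟨by
        have h5 := hp.two_le
        rcases Nat.lt_or_ge 2 p with h6 | h6
        · exact h6
        · exfalso
          have h7 : p = 2 := le_antisymm h6 h5
          rw [h7] at hdvd
          exact (Nat.not_even_iff_odd.mpr (Nat.odd_fermatNumber m))
            (even_iff_two_dvd.mpr hdvd)⟩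
      exact ZMod.neg_one_ne_one
    · rw [pow_succ, pow_mul, h1]
      ring
  have hb0 : b' ≠ 0 := by
    intro h5
    rw [h5, zero_pow (by positivity)] at h1
    exact (neg_ne_zero.mpr one_ne_zero) h1.symm
  have hdvd2 : orderOf b' ∣ p - 1 := ZMod.orderOf_dvd_card_sub_one hb0
  rw [hord] at hdvd2
  have hle := Nat.le_of_dvd (by have := hp.two_le; omega) hdvd2
  have h2 : 2 ^ (n + 1) < p := by have := hp.two_le; omega
  have h3 : (2 ^ (n + 1) + 1) ^ 2 ≤ 2 ^ (2 ^ m) + 1 := (Nat.pow_le_pow_left h2 2).trans hsq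
  have h4 : 2 ^ (2 ^ m) ≤ 2 ^ (2 * (n + 1)) := Nat.pow_le_pow_right (by norm_num) (by omega)
  have h5 : 2 ^ (2 * (n + 1)) = (2 ^ (n + 1)) ^ 2 := by rw [← pow_mul, mul_comm]
  have h6 : 0 < 2 ^ (n + 1) := by positivity
  nlinarith

/-- From the index to the power. -/
lemma pow_of {m v w : ℕ} (hw : Odd w) (hv : v ≤ m) (hm : m + 1 ≤ 2 ^ m)
    {b : ZMod (Nat.fermatNumber m)} (h : b ^ (2 ^ (2 ^ m - (m + 1))) = 2 ^ (2 ^ v * w)) :
    b ^ (2 ^ (2 ^ m - 1 - v)) = -1 := by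
  have h1 : 2 ^ m - 1 - v = (2 ^ m - (m + 1)) + (m - v) := by omega
  rw [h1, pow_add, pow_mul, h, ← pow_mul]
  have h2 : 2 ^ v * w * 2 ^ (m - v) = 2 ^ m * w := by
    have : 2 ^ m = 2 ^ v * 2 ^ (m - v) := by rw [← pow_add]; congr 1; omega
    rw [this]; ring
  rw [h2, pow_mul, two_pow_two_pow, hw.neg_one_pow]

lemma order_of {m n : ℕ} {b : ZMod (Nat.fermatNumber m)} (h : b ^ (2 ^ n) = -1) :
    orderOf b = 2 ^ (n + 1) := by
  have hF3 := Nat.three_le_fermatNumber m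
  have : Fact (2 < Nat.fermatNumber m) := ⟨by omega⟩
  apply orderOf_eq_prime_pow
  · rw [h]
    exact ZMod.neg_one_ne_one
  · rw [pow_succ, pow_mul, h]
    ring

lemma conv_E {m E : ℕ} (hm : 4 ≤ m) (hE : ¬ 2 ^ (m + 1) ∣ E) {b : ZMod (Nat.fermatNumber m)}
    (h : b ^ (2 ^ (2 ^ m - (m + 1))) = 2 ^ E) : (Nat.fermatNumber m).Prime := by
  have hE0 : E ≠ 0 := by rintro rfl; exact hE (dvd_zero _)
  obtain ⟨v, w, hw, rfl⟩ := Nat.exists_eq_two_pow_mul_odd hE0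
  have hv : v ≤ m := by
    by_contra hv
    exact hE ((Nat.pow_dvd_pow 2 (by omega)).trans (dvd_mul_right _ _))
  have hbig : ∀ m : ℕ, 4 ≤ m → 2 * m < 2 ^ m := by
    intro m hm
    induction m, hm using Nat.le_induction with
    | base => norm_num
    | succ m hm ih => rw [pow_succ]; omega
  have hb := hbig m hm
  exact conv_pow (by omega) (pow_of hw hv (by omega) h)

/-- The signs for `2 ^ s + 1`. -/
lemma LS_plus {m h j c : ℕ} (hm : m = h + j) (hh : 1 ≤ h) (hc : Odd c) :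
    LS m j (c + 2 ^ h) = ∑ r ∈ range (m + 2), (-1 : ℚ) ^ (r + 1) *
      ((sgn m c (2 ^ j * (r + 1)) : ℚ) * ((2 : ℚ) ^ (2 ^ j * (r + 1)) / (r + 1))) := by
  unfold LS
  apply sum_congr rfl
  intro r _
  have h1 : sgn m (c + 2 ^ h) (2 ^ j * (r + 1)) = (-1) ^ (r + 1) * sgn m c (2 ^ j * (r + 1)) := by
    rcases Nat.even_or_odd (r + 1) with he | ho
    · rw [he.neg_one_pow, one_mul]
      obtain ⟨t, ht⟩ := he
      have h2 : 2 ^ j * (r + 1) = 2 ^ (j + 1) * t := by rw [ht]; ring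
      have h3 := chi_same (m := m) (a := j + 1) (n := h) (k := t) (r := c) (by omega) (by omega)
        hc 1
      rw [mul_one] at h3
      rw [sgn_eq, sgn_eq, h2, h3]
    · rw [ho.neg_one_pow, sgn_eq, sgn_eq, chi_step (m := m) (a := j) (n := h) hm (by omega) hc ho]
      ring
  rw [h1]
  push_cast
  ring

/-- For `c = 1` the signs disappear. -/
lemma LS_one {m j : ℕ} (hm : 4 ≤ m) (s : ℕ → ℤ) :
    ∑ r ∈ range (m + 2), (s r : ℚ) * ((sgn m 1 (2 ^ j * (r + 1)) : ℚ) *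
      ((2 : ℚ) ^ (2 ^ j * (r + 1)) / (r + 1))) -
    ∑ r ∈ range (m + 2), (s r : ℚ) * ((2 : ℚ) ^ (2 ^ j * (r + 1)) / (r + 1)) ∈ Zt (m + 3) := by
  rw [← sum_sub_distrib]
  apply AddSubgroup.sum_mem
  intro r _
  rcases Nat.lt_or_ge (2 ^ j * (r + 1)) (2 ^ m) with h | h
  · have h1 : sgn m 1 (2 ^ j * (r + 1)) = 1 := by
      rw [sgn_eq, Nat.cast_one, ZMod.inv_one, mul_one, chi_natCast, if_pos]
      exact (Nat.mod_le _ _).trans_lt h
    rw [h1]
    have : (s r : ℚ) * (((1 : ℤ) : ℚ) * ((2 : ℚ) ^ (2 ^ j * (r + 1)) / (r + 1))) -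
      (s r : ℚ) * ((2 : ℚ) ^ (2 ^ j * (r + 1)) / (r + 1)) = 0 := by push_cast; ring
    rw [this]
    exact AddSubgroup.zero_mem _
  · have hbig : ∀ m : ℕ, 4 ≤ m → 2 * m + 4 < 2 ^ m := by
      intro m hm
      induction m, hm using Nat.le_induction with
      | base => norm_num
      | succ m hm ih => rw [pow_succ]; omega
    have hb := hbig m hm
    obtain ⟨e, o, ho, he⟩ := Nat.exists_eq_two_pow_mul_odd (show r + 1 ≠ 0 by omega)
    have he' : 2 ^ j * (r + 1) = 2 ^ (j + e) * o := by rw [he]; ring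
    have h3 := tail_le (m := m) ho he' (by omega)
    have h5 := Zt_int_mul (s r * (sgn m 1 (2 ^ j * (r + 1)) - 1))
      (Zt_term (N := m + 3) (x := 2 ^ j * (r + 1)) ho he (by omega))
    convert h5 using 1
    push_cast
    ring

end Pool.Agent.J4.H56.FM
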